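import Pool.Agent.TH133.PW.Kun

/-!
# The pointwise principle for the Künneth projectors

Let `X` be smooth and proper of dimension `n`, `W` a Weil cohomology theory with coefficient field
`K`, `H(X) = ⊕ H^j(X)` the cohomology of `X`, and `0 ≤ i ≤ 2n`. The algebraic cycles of codimension
`n` on `X × X` act on `H(X)` by operators of degree zero.

(A) The projector `π_i` of `H(X)` onto `H^i(X)` is a `K`-linear combination of algebraic
correspondences if and only if it is so pointwise: for all `y ∈ H^i(X)` and `y' ∈ H^j(X)`, `j ≠ i`,
there is a combination `φ` of correspondences, which may depend on `y` and `y'`, with `φ(y) = y` and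
`φ(y') = 0`. Equivalently: if a class `y × w + y' × w'` on `X × X` with `y`, `w`, `y'`, `w'` of degrees
`i`, `2n - i`, `j`, `2n - j`, `j ≠ i`, is orthogonal to all algebraic cycles, then `tr(y w) = 0`.
Equivalently: every subspace of `H(X)` which is stable under the correspondences is stable under `π_i`.

(B) Let `𝒲` be a nonempty set of Weil cohomology theories such that all correspondences have the
same rational traces on the `H^j(X)` in all of them (for instance the `ℓ`-adic theories, for all
primes `ℓ` different from the characteristic, by Deligne, Katz and Messing). If one of the three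
conditions in (A) holds for ONE of these theories, then ONE cycle with rational coefficients induces
the projectors `π_i` for all of them.
-/

set_option autoImplicit false

open CategoryTheory AlgebraicGeometry

universe u v

namespace Pool.Agent.Results.MP_4ca46c_ag.PointwisePrinciple

open Pool.Agent.H914 VarClass Obj WeilCohomology Pool.Agent.TH133.PW

/-- **The pointwise principle for the Künneth projectors.** (A) For one theory `W`, with
coefficients in `K`. (B) For a set `𝒲` of theories with the same traces of correspondences: one
rational cycle for all theories, from one theory. -/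
theorem result {k : Type u} [Field k] {𝒱 : VarClass k} {ops : CycleOps 𝒱} (X : 𝒱.Obj) (i : ℕ) :
    (∀ W : WeilCohomology.{u, v} ops,
      [ProjectorInSpan (W.gr X) i (cycleOperators W X X.dim),
        Separates (W.gr X) i (cycleOperators W X X.dim),
        DetectsPairs W X i,
        StableSplit (W.gr X) i (cycleOperators W X X.dim)].TFAE) ∧
    ∀ 𝒲 : Set (WeilCohomology.{u, v} ops), 𝒲.Nonempty → SameTracesAll 𝒲 X →
      [OneProjectorForAll 𝒲 X i, SeparatesForOne 𝒲 X i, DetectsForOne 𝒲 X i,
        SplitForOne 𝒲 X i].TFAE :=
  ⟨fun _ => kunneth_span_tfae i, fun _ hne h𝒲 => kunneth_one_tfae hne h𝒲 i⟩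

end Pool.Agent.Results.MP_4ca46c_ag.PointwisePrinciple
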